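import Mathlib

/-!
# A sequence over `C_2^3 ⊕ C_6` all of whose zero-sum subsequences have odd length

Let `G = C_2^3 ⊕ C_6`. We show that the Davenport constant of `G` is `9`, and we exhibit a sequence
of length `10` over `G` such that every non-empty zero-sum subsequence has odd length. This is the
case `n_1 = 2`, `i = 2`, `A = {1}` of the conjecture, which is therefore false.

The upper bound `D(G) ≤ 9` is proved with characters: if nine elements of `F_2^4 × Z_3` had no
non-empty zero-sum subset, the sums in `Z_3` over a `5`-dimensional space of subsets would give a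
function `f : F_2^5 → F_3` vanishing only at `0`, whose Fourier transform `g` has support of size
`N ≤ 10`. Comparing `f ^ 2` with the convolution `g * g` gives `N ≡ 2 (mod 3)` and
`N (N - 1) / 2 ≥ 31`, which is impossible.
-/

set_option autoImplicit false

open Finset

namespace Pool.Agent.Results.MP_9fddba_co.ParityCounterexample

/-- The group `C_{n_1} ⊕ ... ⊕ C_{n_r}`. -/
abbrev Grp {r : ℕ} (n : Fin r → ℕ) : Type := (k : Fin r) → ZMod (n k)

/-- `t` is the Davenport constant of `G`. -/
def IsDavenport (G : Type) [AddCommGroup G] (t : ℕ) : Prop :=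
  IsLeast {t : ℕ | 0 < t ∧ ∀ S : Multiset G, t ≤ S.card → ∃ T ≤ S, T ≠ 0 ∧ T.sum = 0} t

/-! ### Characters of `F_2^5` with values in `F_3` -/

/-- The space `F_2^5`. -/
abbrev V := Fin 5 → ZMod 2

/-- The sign of an element of `F_2`. -/
def sgn (t : ZMod 2) : ZMod 3 := if t = 0 then 1 else -1

/-- The inner product. -/
def ip (a x : V) : ZMod 2 := ∑ k, a k * x k

theorem ip_add (a b x : V) : ip (a + b) x = ip a x + ip b x := by
  simp [ip, add_mul, Finset.sum_add_distrib]

theorem sgn_add (s t : ZMod 2) : sgn (s + t) = sgn s * sgn t := by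
  revert s t; decide

theorem sgn_eq (t : ZMod 2) : (if t = 1 then (1 : ZMod 3) else 0) = sgn t - 1 := by
  revert t; decide

theorem orth (a : V) : ∑ x : V, sgn (ip a x) = if a = 0 then 2 else 0 := by
  revert a
  decide +kernel


theorem sq_one (t : ZMod 3) (h : t ≠ 0) : t ^ 2 = 1 := by
  revert t; decide

theorem add_self2 (t : ZMod 2) : t + t = 0 := by
  revert t; decide

theorem add_selfV (a : V) : a + a = 0 := by
  funext k
  exact add_self2 _

theorem add_eq_zero_iff' (a b c : V) : a + b + c = 0 ↔ c = a + b := by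
  constructor
  · intro h
    have h2 : c = -(a + b) := by
      rw [eq_neg_iff_add_eq_zero, add_comm]; exact h
    rw [h2]
    funext k
    simp [CharTwo.neg_eq]
  · intro h
    rw [h]
    exact add_selfV _

theorem conv (g f : V → ZMod 3) (hf : ∀ x, f x = ∑ a, g a * sgn (ip a x)) (w : V) :
    ∑ x, sgn (ip w x) * f x ^ 2 = 2 * ∑ a, g a * g (w + a) := by
  have h1 : ∀ x, sgn (ip w x) * f x ^ 2 = ∑ a, ∑ b, g a * g b * sgn (ip (w + a + b) x) := by
    intro x
    rw [pow_two, hf x, Finset.sum_mul_sum, Finset.mul_sum]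
    refine Finset.sum_congr rfl fun a _ => ?_
    rw [Finset.mul_sum]
    refine Finset.sum_congr rfl fun b _ => ?_
    rw [ip_add, ip_add, sgn_add, sgn_add]
    ring
  simp_rw [h1]
  rw [Finset.sum_comm, Finset.mul_sum]
  refine Finset.sum_congr rfl fun a _ => ?_
  rw [Finset.sum_comm]
  simp_rw [← Finset.mul_sum, orth]
  rw [Finset.sum_eq_single (w + a)]
  · rw [if_pos ((add_eq_zero_iff' _ _ _).2 rfl)]
    ring
  · intro b _ hb
    rw [if_neg (fun h => hb ((add_eq_zero_iff' _ _ _).1 h)), mul_zero]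
  · intro h; exact absurd (Finset.mem_univ _) h

theorem lhs (f : V → ZMod 3) (h0 : f 0 = 0) (h1 : ∀ x, x ≠ 0 → f x ≠ 0) (w : V) :
    ∑ x, sgn (ip w x) * f x ^ 2 = (if w = 0 then 2 else 0) - 1 := by
  rw [← orth w, ← Finset.sum_erase_add (Finset.univ : Finset V) _ (Finset.mem_univ (0 : V)),
    ← Finset.sum_erase_add (Finset.univ : Finset V) (fun x => sgn (ip w x))
      (Finset.mem_univ (0 : V))]
  have e : sgn (ip w 0) = 1 := by simp [ip, sgn]
  rw [h0, e]
  have : ∀ x ∈ (Finset.univ : Finset V).erase 0, sgn (ip w x) * f x ^ 2 = sgn (ip w x) := by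
    intro x hx
    rw [sq_one _ (h1 x (Finset.ne_of_mem_erase hx)), mul_one]
  rw [Finset.sum_congr rfl this]
  ring

/-- The support of `g` has at least `11` elements. -/
theorem support_bound (g f : V → ZMod 3) (hf : ∀ x, f x = ∑ a, g a * sgn (ip a x))
    (h0 : f 0 = 0) (h1 : ∀ x, x ≠ 0 → f x ≠ 0) :
    11 ≤ (Finset.univ.filter (fun a => g a ≠ 0)).card := by
  set s := Finset.univ.filter (fun a => g a ≠ 0) with hs
  have hc : ∀ w : V, 2 * ∑ a, g a * g (w + a) = (if w = 0 then 2 else 0) - 1 := fun w => by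
    rw [← conv g f hf w, lhs f h0 h1 w]
  -- the size of `s` modulo `3`
  have hmod : ((s.card : ℕ) : ZMod 3) = 2 := by
    have h := hc 0
    rw [if_pos rfl] at h
    have h2 : ∑ a, g a * g (0 + a) = ((s.card : ℕ) : ZMod 3) := by
      rw [Finset.card_eq_sum_ones, Nat.cast_sum, hs, Finset.sum_filter]
      refine Finset.sum_congr rfl fun a _ => ?_
      rw [zero_add, ← pow_two]
      by_cases ha : g a = 0
      · simp [ha]
      · rw [sq_one _ ha, if_pos ha]; simp
    rw [h2] at h
    revert h
    generalize ((s.card : ℕ) : ZMod 3) = t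
    revert t; decide
  -- every non-zero vector is a sum of two elements of `s`
  have hcov : (Finset.univ.erase (0 : V)) ⊆ (s.powersetCard 2).image (fun t => ∑ a ∈ t, a) := by
    intro w hw
    have hw0 : w ≠ 0 := Finset.ne_of_mem_erase hw
    have h := hc w
    rw [if_neg hw0] at h
    have hne : ∑ a, g a * g (w + a) ≠ 0 := by
      intro h3
      rw [h3] at h
      revert h; decide
    obtain ⟨a, _, ha⟩ := Finset.exists_ne_zero_of_sum_ne_zero hne
    have ha1 : g a ≠ 0 := left_ne_zero_of_mul ha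
    have ha2 : g (w + a) ≠ 0 := right_ne_zero_of_mul ha
    have hne2 : w + a ≠ a := fun h => hw0 (by simpa using h)
    refine Finset.mem_image.2 ⟨{w + a, a}, ?_, ?_⟩
    · rw [Finset.mem_powersetCard]
      refine ⟨?_, Finset.card_pair hne2⟩
      intro b hb
      rw [Finset.mem_insert, Finset.mem_singleton] at hb
      rw [hs, Finset.mem_filter]
      rcases hb with rfl | rfl
      · exact ⟨Finset.mem_univ _, ha2⟩
      · exact ⟨Finset.mem_univ _, ha1⟩
    · rw [Finset.sum_pair hne2, add_assoc]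
      rw [add_selfV, add_zero]
  have hcard : 31 ≤ s.card.choose 2 := by
    have h3 := Finset.card_le_card hcov
    have h4 := Finset.card_image_le (s := s.powersetCard 2) (f := fun t => ∑ a ∈ t, a)
    rw [Finset.card_powersetCard] at h4
    have h5 : (Finset.univ.erase (0 : V)).card = 31 := by
      rw [Finset.card_erase_of_mem (Finset.mem_univ _), Finset.card_univ]
      simp
    omega
  by_contra hlt
  have hlt' : s.card < 11 := by omega
  revert hmod hcard
  generalize s.card = m at hlt'
  clear hlt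
  interval_cases m <;> decide

/-- Nine elements of `F_2^4 × Z_3` have a non-empty zero-sum subset. -/
theorem core (v : Fin 9 → (Fin 4 → ZMod 2)) (c : Fin 9 → ZMod 3) :
    ∃ T : Finset (Fin 9), T.Nonempty ∧ ∑ i ∈ T, v i = 0 ∧ ∑ i ∈ T, c i = 0 := by
  by_contra hcon
  have hcon' : ∀ T : Finset (Fin 9), T.Nonempty → ∑ i ∈ T, v i = 0 → ∑ i ∈ T, c i ≠ 0 := by
    intro T h1 h2 h3
    exact hcon ⟨T, h1, h2, h3⟩
  set φ : (Fin 9 → ZMod 2) →ₗ[ZMod 2] (Fin 4 → ZMod 2) := Fintype.linearCombination (ZMod 2) v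
    with hφ
  have hφa : ∀ x, φ x = ∑ i, x i • v i := by
    intro x
    rw [hφ, Fintype.linearCombination_apply]
  have hker : 5 ≤ Module.finrank (ZMod 2) (LinearMap.ker φ) := by
    have h1 := LinearMap.finrank_range_add_finrank_ker φ
    have h2 : Module.finrank (ZMod 2) (LinearMap.range φ) ≤ 4 := by
      have := Submodule.finrank_le (LinearMap.range φ)
      simpa using this
    have h3 : Module.finrank (ZMod 2) (Fin 9 → ZMod 2) = 9 := by simp
    omega
  obtain ⟨b, hb⟩ := exists_linearIndependent_of_le_finrank hker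
  set a : Fin 9 → V := fun i k => (b k).1 i with ha
  have hker0 : ∀ k, ∑ i, (b k).1 i • v i = 0 := by
    intro k
    have := LinearMap.mem_ker.1 (b k).2
    rw [hφa] at this
    exact this
  have hT1 : ∀ x : V, ∑ i ∈ Finset.univ.filter (fun i => ip (a i) x = 1), v i = 0 := by
    intro x
    have h1 : ∑ i ∈ Finset.univ.filter (fun i => ip (a i) x = 1), v i = ∑ i, ip (a i) x • v i := by
      rw [Finset.sum_filter]
      refine Finset.sum_congr rfl fun i _ => ?_
      have h01 : ∀ t : ZMod 2, t = 0 ∨ t = 1 := by decide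
      rcases h01 (ip (a i) x) with h | h
      · rw [h]; simp
      · rw [h]; simp
    rw [h1]
    have h2 : ∀ i, ip (a i) x • v i = ∑ k, x k • ((b k).1 i • v i) := by
      intro i
      rw [ip, Finset.sum_smul]
      refine Finset.sum_congr rfl fun k _ => ?_
      rw [smul_smul, mul_comm]
    simp_rw [h2]
    rw [Finset.sum_comm]
    refine Finset.sum_eq_zero fun k _ => ?_
    rw [← Finset.smul_sum, hker0 k, smul_zero]
  have hT2 : ∀ x : V, x ≠ 0 → (Finset.univ.filter (fun i => ip (a i) x = 1)).Nonempty := by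
    intro x hx
    by_contra hemp
    rw [Finset.not_nonempty_iff_eq_empty, Finset.filter_eq_empty_iff] at hemp
    apply hx
    have h01 : ∀ t : ZMod 2, t ≠ 1 → t = 0 := by decide
    have h1 : ∑ k, x k • b k = 0 := by
      apply Subtype.ext
      funext i
      have h2 := h01 _ (hemp (Finset.mem_univ i))
      rw [ip] at h2
      simp only [Submodule.coe_sum, Submodule.coe_smul, Finset.sum_apply, Pi.smul_apply,
        smul_eq_mul, ZeroMemClass.coe_zero, Pi.zero_apply]
      rw [← h2]
      refine Finset.sum_congr rfl fun k _ => ?_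
      rw [mul_comm]
    have h3 := Fintype.linearIndependent_iff.1 hb x h1
    funext k
    exact h3 k
  -- the function `f` and its transform `g`
  let f : V → ZMod 3 := fun x => ∑ i ∈ Finset.univ.filter (fun i => ip (a i) x = 1), c i
  let g : V → ZMod 3 := fun w => (∑ i, if a i = w then c i else 0) + if w = 0 then -∑ i, c i else 0
  have hfg : ∀ x, f x = ∑ w, g w * sgn (ip w x) := by
    intro x
    have e1 : f x = ∑ i, c i * (sgn (ip (a i) x) - 1) := by
      show ∑ i ∈ Finset.univ.filter (fun i => ip (a i) x = 1), c i = _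
      rw [Finset.sum_filter]
      refine Finset.sum_congr rfl fun i _ => ?_
      rw [← sgn_eq, mul_ite, mul_one, mul_zero]
    have e2 : ∑ w, g w * sgn (ip w x) =
        ∑ w, (∑ i, (if a i = w then c i else 0) * sgn (ip w x)) +
          ∑ w, (if w = 0 then -∑ i, c i else 0) * sgn (ip w x) := by
      rw [← Finset.sum_add_distrib]
      refine Finset.sum_congr rfl fun w _ => ?_
      show ((∑ i, if a i = w then c i else 0) + if w = 0 then -∑ i, c i else 0) * _ = _
      rw [add_mul, Finset.sum_mul]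
    rw [e1, e2, Finset.sum_comm]
    have e3 : ∀ i, ∑ w, (if a i = w then c i else 0) * sgn (ip w x) = c i * sgn (ip (a i) x) := by
      intro i
      rw [Finset.sum_eq_single (a i)]
      · rw [if_pos rfl]
      · intro w _ hw
        rw [if_neg (fun h => hw h.symm), zero_mul]
      · intro h; exact absurd (Finset.mem_univ _) h
    have e4 : ∑ w, (if w = 0 then -∑ i, c i else 0) * sgn (ip w x) = -∑ i, c i := by
      rw [Finset.sum_eq_single (0 : V)]
      · rw [if_pos rfl]
        have : sgn (ip 0 x) = 1 := by simp [ip, sgn]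
        rw [this, mul_one]
      · intro w _ hw
        rw [if_neg hw, zero_mul]
      · intro h; exact absurd (Finset.mem_univ _) h
    rw [Finset.sum_congr rfl fun i _ => e3 i, e4, ← Finset.sum_neg_distrib,
      ← Finset.sum_add_distrib]
    refine Finset.sum_congr rfl fun i _ => ?_
    ring
  have hf0 : f 0 = 0 := by
    show ∑ i ∈ Finset.univ.filter (fun i => ip (a i) 0 = 1), c i = 0
    have : Finset.univ.filter (fun i => ip (a i) 0 = 1) = ∅ := by
      rw [Finset.filter_eq_empty_iff]
      intro i _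
      simp [ip]
    rw [this, Finset.sum_empty]
  have hf1 : ∀ x, x ≠ 0 → f x ≠ 0 := fun x hx => hcon' _ (hT2 x hx) (hT1 x)
  have hb := support_bound g f hfg hf0 hf1
  have hsub : Finset.univ.filter (fun w => g w ≠ 0) ⊆ insert 0 (Finset.univ.image a) := by
    intro w hw
    rw [Finset.mem_filter] at hw
    by_contra hw2
    rw [Finset.mem_insert, Finset.mem_image] at hw2
    push Not at hw2
    apply hw.2
    show (∑ i, if a i = w then c i else 0) + (if w = 0 then -∑ i, c i else 0) = 0
    rw [if_neg hw2.1, add_zero]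
    exact Finset.sum_eq_zero fun i _ => if_neg (hw2.2 i (Finset.mem_univ i))
  have h1 := Finset.card_le_card hsub
  have h2 := Finset.card_insert_le 0 (Finset.univ.image a)
  have h3 : (Finset.univ.image a).card ≤ 9 := by
    have := Finset.card_image_le (s := (Finset.univ : Finset (Fin 9))) (f := a)
    simpa using this
  omega

/-! ### The group `C_2^3 ⊕ C_6` -/

/-- The invariants of `C_2^3 ⊕ C_6`. -/
def inv : Fin 4 → ℕ := ![2, 2, 2, 6]

/-- The four components in `F_2` of an element of `C_2^3 ⊕ C_6`. -/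
def toV (x : Grp inv) : Fin 4 → ZMod 2 :=
  ![(x 0 : ZMod 2), (x 1 : ZMod 2), (x 2 : ZMod 2),
    ZMod.castHom (by norm_num : 2 ∣ 6) (ZMod 2) (x 3 : ZMod 6)]

/-- The component in `F_3` of an element of `C_2^3 ⊕ C_6`. -/
def toC (x : Grp inv) : ZMod 3 := ZMod.castHom (by norm_num : 3 ∣ 6) (ZMod 3) (x 3 : ZMod 6)

theorem zmod6 : ∀ y : ZMod 6, ZMod.castHom (by norm_num : 2 ∣ 6) (ZMod 2) y = 0 →
    ZMod.castHom (by norm_num : 3 ∣ 6) (ZMod 3) y = 0 → y = 0 := by
  decide

theorem sum_eq_zero_of (T : Finset (Fin 9)) (x : Fin 9 → Grp inv)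
    (h1 : ∑ i ∈ T, toV (x i) = 0) (h2 : ∑ i ∈ T, toC (x i) = 0) : ∑ i ∈ T, x i = 0 := by
  funext k
  rw [Finset.sum_apply]
  have h1k : ∀ k, ∑ i ∈ T, toV (x i) k = 0 := by
    intro k
    have := congrFun h1 k
    rwa [Finset.sum_apply] at this
  fin_cases k
  · exact h1k 0
  · exact h1k 1
  · exact h1k 2
  · apply zmod6
    · have h := h1k 3
      refine (map_sum (ZMod.castHom (by norm_num : 2 ∣ 6) (ZMod 2))
        (fun i => (x i 3 : ZMod 6)) T).trans h
    · refine (map_sum (ZMod.castHom (by norm_num : 3 ∣ 6) (ZMod 3))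
        (fun i => (x i 3 : ZMod 6)) T).trans h2

theorem davenport_upper (S : Multiset (Grp inv)) (hS : 9 ≤ S.card) :
    ∃ T ≤ S, T ≠ 0 ∧ T.sum = 0 := by
  induction S using Quotient.inductionOn with
  | h l =>
    have hl : 9 ≤ l.length := hS
    let x : Fin 9 → Grp inv := fun i => l.get ⟨i.1, lt_of_lt_of_le i.2 hl⟩
    obtain ⟨T, hT, h1, h2⟩ := core (fun i => toV (x i)) (fun i => toC (x i))
    refine ⟨T.val.map x, ?_, ?_, ?_⟩
    · have e1 : T.val.map x ≤ (Finset.univ : Finset (Fin 9)).val.map x :=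
        Multiset.map_le_map (Finset.val_le_iff.2 (Finset.subset_univ T))
      have e2 : (Finset.univ : Finset (Fin 9)).val.map x =
          ((l.take 9 : List (Grp inv)) : Multiset _) := by
        rw [Fin.univ_val_map]
        congr 1
        apply List.ext_get
        · simp [hl]
        · intro n h1 h2
          simp only [List.get_eq_getElem, List.getElem_ofFn, List.getElem_take, x]
      rw [e2] at e1
      exact e1.trans (Multiset.coe_le.2 (List.take_sublist 9 l).subperm)
    · intro h
      rw [Multiset.map_eq_zero, Finset.val_eq_zero] at h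
      exact hT.ne_empty h
    · exact sum_eq_zero_of T x h1 h2

/-- The element of `C_2^3 ⊕ C_6` with given coordinates. -/
def el (a b c : ZMod 2) (d : ZMod 6) : Grp inv
  | ⟨0, _⟩ => a
  | ⟨1, _⟩ => b
  | ⟨2, _⟩ => c
  | ⟨3, _⟩ => d

/-- A zero-sum free sequence of length `8`. -/
def free8 : List (Grp inv) :=
  [el 1 0 0 0, el 0 1 0 0, el 0 0 1 0, el 0 0 0 1, el 0 0 0 1, el 0 0 0 1, el 0 0 0 1, el 0 0 0 1]

theorem free8_spec : ∀ l ∈ free8.sublists, l ≠ [] → l.sum ≠ 0 := by
  decide +kernel

/-- A sequence of length `10` whose zero-sum subsequences have odd length. -/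
def odd10 : List (Grp inv) :=
  [el 0 0 0 2, el 1 0 0 4, el 0 1 0 4, el 0 0 1 4, el 0 0 0 1, el 0 0 0 2, el 0 0 0 2, el 1 1 1 4,
    el 1 1 0 1, el 1 0 1 1]

theorem odd10_spec : ∀ l ∈ odd10.sublists, l ≠ [] → l.sum = 0 → l.length % 2 = 1 := by
  decide +kernel

theorem sub_of_le (l : List (Grp inv)) (T : Multiset (Grp inv)) (h : T ≤ (l : Multiset _)) :
    ∃ l' ∈ l.sublists, (l' : Multiset _) = T := by
  have h1 : T ∈ Multiset.powerset (l : Multiset (Grp inv)) := Multiset.mem_powerset.2 h
  rw [Multiset.powerset_coe, Multiset.mem_coe, List.mem_map] at h1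
  obtain ⟨l', hl', rfl⟩ := h1
  exact ⟨l', hl', rfl⟩

/-- The Davenport constant of `C_2^3 ⊕ C_6` is `9`. -/
theorem davenport : IsDavenport (Grp inv) 9 := by
  refine ⟨⟨by norm_num, davenport_upper⟩, ?_⟩
  rintro t ⟨-, ht⟩
  by_contra hlt
  obtain ⟨T, hT, hT0, hTs⟩ := ht (free8 : Multiset _) (by
    show t ≤ free8.length
    have : free8.length = 8 := rfl
    omega)
  obtain ⟨l', hl', rfl⟩ := sub_of_le _ _ hT
  exact free8_spec l' hl' (fun h => hT0 (by rw [h]; rfl)) hTs

/-- The statement of the problem is false: there are a finite abelian group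
`G = C_{n_1} ⊕ ... ⊕ C_{n_r}` with `1 < n_1 ∣ n_2 ∣ ... ∣ n_r`, an integer `i ∈ [1, n_1]`, a
sequence `S` over `G` of length `D(G) + i - 1`, and a set `A ⊆ [1, n_1 - 1]` of size `i - 1`, such
that the length of every non-empty zero-sum subsequence of `S` is congruent modulo `n_1` to an
element of `A`. In the example `G = C_2^3 ⊕ C_6`, `D(G) = 9`, `i = 2` and `A = {1}`. -/
theorem result :
    ∃ (r : ℕ) (hr : 0 < r) (n : Fin r → ℕ), (∀ k, 1 < n k) ∧ (∀ j k, j ≤ k → n j ∣ n k) ∧
      ∃ D : ℕ, IsDavenport (Grp n) D ∧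
        ∃ i : ℕ, 1 ≤ i ∧ i ≤ n ⟨0, hr⟩ ∧
          ∃ S : Multiset (Grp n), S.card = D + i - 1 ∧
            ∃ A : Finset ℕ, A ⊆ Finset.Icc 1 (n ⟨0, hr⟩ - 1) ∧ A.card = i - 1 ∧
              ∀ T ≤ S, T ≠ 0 → T.sum = 0 → ∃ b ∈ A, T.card ≡ b [MOD n ⟨0, hr⟩] := by
  refine ⟨4, by norm_num, inv, by decide, by decide, 9, davenport, 2, by norm_num, le_refl 2,
    (odd10 : Multiset _), rfl, {1}, by decide, rfl, ?_⟩
  intro T hT hT0 hTs
  refine ⟨1, Finset.mem_singleton_self 1, ?_⟩
  obtain ⟨l', hl', rfl⟩ := sub_of_le _ _ hT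
  exact odd10_spec l' hl' (fun h => hT0 (by rw [h]; rfl)) hTs

end Pool.Agent.Results.MP_9fddba_co.ParityCounterexample
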